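import Mathlib

/-!
# Graphs whose adjacency form has restricted spread less than two
-/

set_option autoImplicit false

open Finset

namespace Pool.Agent.X275.PG

variable {n : ℕ}

/-- The quadratic form of a matrix. -/
noncomputable def fm (E : Fin n → Fin n → ℤ) (x : Fin n → ℝ) : ℝ :=
  ∑ i, x i * ∑ j, (E i j : ℝ) * x j

/-- `E` is the adjacency matrix of a graph whose form has spread less than two on the orthogonal
complement of the all-ones vector, with integral average degree. -/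
structure Sp (E : Fin n → Fin n → ℤ) : Prop where
  symm : ∀ i j, E i j = E j i
  diag : ∀ i, E i i = 0
  zo : ∀ i j, E i j = 0 ∨ E i j = 1
  gap : ∀ x y : Fin n → ℝ, ∑ i, x i = 0 → ∑ i, y i = 0 → 0 < ∑ i, x i ^ 2 → 0 < ∑ i, y i ^ 2 →
    fm E x * (∑ i, y i ^ 2) - fm E y * (∑ i, x i ^ 2) < 2 * (∑ i, x i ^ 2) * ∑ i, y i ^ 2
  dvd : (n : ℤ) ∣ ∑ i, ∑ j, E i j

/-- Extension by zero along `f`. -/
noncomputable def emb {k : ℕ} (f : Fin k → Fin n) (x : Fin k → ℤ) : Fin n → ℝ :=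
  fun m => ∑ a, if f a = m then (x a : ℝ) else 0

lemma sum_emb_mul {k : ℕ} (f : Fin k → Fin n) (x : Fin k → ℤ) (g : Fin n → ℝ) :
    ∑ m, emb f x m * g m = ∑ a, (x a : ℝ) * g (f a) := by
  unfold emb
  simp_rw [sum_mul]
  rw [sum_comm]
  refine sum_congr rfl fun a _ => ?_
  simp [ite_mul]

lemma emb_apply {k : ℕ} (f : Fin k → Fin n) (hf : Function.Injective f) (x : Fin k → ℤ)
    (a : Fin k) : emb f x (f a) = x a := by
  unfold emb
  simp [hf.eq_iff]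

/-- The integer form of a matrix. -/
def Qf {k : ℕ} (M : Fin k → Fin k → ℤ) (x : Fin k → ℤ) : ℤ := ∑ a, x a * ∑ b, M a b * x b

/-- The integer square norm. -/
def Nf {k : ℕ} (x : Fin k → ℤ) : ℤ := ∑ a, x a ^ 2

/-- The pair `t` shows that the spread of `M` is at least two. -/
def bad {k : ℕ} (M : Fin k → Fin k → ℤ) (t : (Fin k → ℤ) × (Fin k → ℤ)) : Prop :=
  ∑ a, t.1 a = 0 ∧ ∑ a, t.2 a = 0 ∧ 0 < Nf t.1 ∧ 0 < Nf t.2 ∧
    2 * Nf t.1 * Nf t.2 ≤ Qf M t.1 * Nf t.2 - Qf M t.2 * Nf t.1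

instance {k : ℕ} (M : Fin k → Fin k → ℤ) (t : (Fin k → ℤ) × (Fin k → ℤ)) : Decidable (bad M t) := by
  unfold bad; infer_instance

lemma kill {E : Fin n → Fin n → ℤ} (h : Sp E) {k : ℕ} (f : Fin k → Fin n)
    (hf : Function.Injective f) (M : Fin k → Fin k → ℤ) (hM : ∀ a b, E (f a) (f b) = M a b)
    (t : (Fin k → ℤ) × (Fin k → ℤ)) (ht : bad M t) : False := by
  obtain ⟨h1, h2, h3, h4, h5⟩ := ht
  have s1 : ∀ x : Fin k → ℤ, ∑ m, emb f x m = ((∑ a, x a : ℤ) : ℝ) := by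
    intro x
    have := sum_emb_mul f x (fun _ => 1)
    simp only [mul_one] at this
    rw [this]; push_cast; rfl
  have s2 : ∀ x : Fin k → ℤ, ∑ m, emb f x m ^ 2 = ((Nf x : ℤ) : ℝ) := by
    intro x
    have := sum_emb_mul f x (emb f x)
    simp only [emb_apply f hf] at this
    unfold Nf
    push_cast
    simp only [sq]
    exact this
  have s3 : ∀ x : Fin k → ℤ, fm E (emb f x) = ((Qf M x : ℤ) : ℝ) := by
    intro x
    unfold fm
    have e1 : ∀ i, ∑ j, (E i j : ℝ) * emb f x j = ∑ b, (x b : ℝ) * (E i (f b) : ℝ) := by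
      intro i
      rw [← sum_emb_mul f x (fun j => (E i j : ℝ))]
      exact sum_congr rfl fun j _ => mul_comm _ _
    simp only [e1]
    rw [sum_emb_mul f x (fun i => ∑ b, (x b : ℝ) * (E i (f b) : ℝ))]
    unfold Qf
    push_cast
    refine sum_congr rfl fun a _ => ?_
    congr 1
    refine sum_congr rfl fun b _ => ?_
    rw [hM]; ring
  have g := h.gap (emb f t.1) (emb f t.2) (by rw [s1, h1]; simp) (by rw [s1, h2]; simp)
    (by rw [s2]; exact_mod_cast h3) (by rw [s2]; exact_mod_cast h4)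
  rw [s2, s2, s3, s3] at g
  have g' : Qf M t.1 * Nf t.2 - Qf M t.2 * Nf t.1 < 2 * Nf t.1 * Nf t.2 := by exact_mod_cast g
  omega

lemma inj4 {a b c d : Fin n} (hab : a ≠ b) (hac : a ≠ c) (had : a ≠ d) (hbc : b ≠ c)
    (hbd : b ≠ d) (hcd : c ≠ d) : Function.Injective ![a, b, c, d] := by
  intro i j hij
  fin_cases i <;> fin_cases j <;> simp_all

lemma inj6 {a b c p q s : Fin n} (hab : a ≠ b) (hac : a ≠ c) (hap : a ≠ p) (haq : a ≠ q)
    (has : a ≠ s) (hbc : b ≠ c) (hbp : b ≠ p) (hbq : b ≠ q) (hbs : b ≠ s) (hcp : c ≠ p)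
    (hcq : c ≠ q) (hcs : c ≠ s) (hpq : p ≠ q) (hps : p ≠ s) (hqs : q ≠ s) :
    Function.Injective ![a, b, c, p, q, s] := by
  intro i j hij
  fin_cases i <;> fin_cases j <;> first | rfl | (exfalso; simp at hij; tauto)

/-- There is no alternating four-cycle. -/
lemma na {E : Fin n → Fin n → ℤ} (h : Sp E) {a b c d : Fin n} (had : a ≠ d) (hbc : b ≠ c)
    (h1 : E a c = 1) (h2 : E b d = 1) (h3 : E a d = 0) (h4 : E b c = 0) : False := by
  have hab : a ≠ b := by rintro rfl; omega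
  have hac : a ≠ c := by rintro rfl; have := h.diag a; omega
  have hbd : b ≠ d := by rintro rfl; have := h.diag b; omega
  have hcd : c ≠ d := by rintro rfl; omega
  have s1 : E c a = 1 := by rw [h.symm]; exact h1
  have s2 : E d b = 1 := by rw [h.symm]; exact h2
  have s3 : E d a = 0 := by rw [h.symm]; exact h3
  have s4 : E c b = 0 := by rw [h.symm]; exact h4
  refine kill h ![a, b, c, d] (inj4 hab hac had hbc hbd hcd) (fun i j => E (![a, b, c, d] i)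
    (![a, b, c, d] j)) (fun _ _ => rfl) (![1, -1, 1, -1], ![1, -1, -1, 1]) ?_
  refine ⟨by decide, by decide, by decide, by decide, ?_⟩
  have hba := h.symm b a
  have hdc := h.symm d c
  simp only [Qf, Nf, Fin.sum_univ_four, Matrix.cons_val, h.diag, h1, h2, h3, h4, s1, s2, s3, s4,
    hba, hdc]
  ring_nf
  omega

/-- Matrix of six vertices. -/
def M6 (b0 b1 b2 b3 b4 b5 b6 : Bool) : Fin 6 → Fin 6 → ℤ :=
  ![![0, 1, 1, cond b0 1 0, cond b1 1 0, 0],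
    ![1, 0, cond b2 1 0, cond b3 1 0, cond b4 1 0, 0],
    ![1, cond b2 1 0, 0, cond b5 1 0, cond b6 1 0, 0],
    ![cond b0 1 0, cond b3 1 0, cond b5 1 0, 0, 0, 0],
    ![cond b1 1 0, cond b4 1 0, cond b6 1 0, 0, 0, 0],
    ![0, 0, 0, 0, 0, 0]]

/-- Test vectors. -/
def T6 : List ((Fin 6 → ℤ) × (Fin 6 → ℤ)) :=
  [(![1, 1, 1, 0, 0, -3], ![3, -3, -3, 2, 2, -1]),
   (![2, 1, 1, -1, 1, -4], ![2, -1, -1, 1, -1, 0]),
   (![2, 1, 1, 1, -1, -4], ![2, -1, -1, -1, 1, 0]),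
   (![1, 1, 1, -1, 1, -3], ![3, -1, -1, -1, -1, 1]),
   (![1, 0, 1, 0, 1, -3], ![1, 0, 1, -1, -1, 0]),
   (![1, 1, 0, 1, 0, -3], ![1, 1, -1, -1, 0, 0]),
   (![1, 1, 1, 1, -2, -2], ![1, -1, -1, 1, 0, 0]),
   (![1, 1, 1, -2, 1, -2], ![1, -1, -1, 0, 1, 0]),
   (![1, 2, -1, -2, 2, -2], ![3, 1, -2, 0, -2, 0]),
   (![2, 1, 3, -3, 0, -3], ![0, 2, -3, -1, 2, 0]),
   (![2, 1, 3, 0, -3, -3], ![0, 2, -3, 2, -1, 0]),
   (![1, 1, 1, 1, -1, -3], ![3, -1, -1, -1, -1, 1]),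
   (![1, 1, 0, 0, 1, -3], ![1, 1, 0, -1, -1, 0]),
   (![1, 1, 1, -1, 1, -3], ![1, 1, -3, 1, 1, -1]),
   (![1, 1, 1, -1, 1, -3], ![1, -3, 1, 1, 1, -1]),
   (![2, 1, 1, 1, -3, -2], ![3, -1, -1, -1, 0, 0]),
   (![1, 1, 1, -1, -1, -1], ![2, -1, -1, 0, 0, 0]),
   (![2, -3, 3, -3, 3, -2], ![3, -2, -2, 1, 0, 0]),
   (![1, 1, 1, 1, -1, -3], ![1, 1, -3, 1, 1, -1]),
   (![3, 2, 2, -3, 0, -4], ![3, -3, -1, -1, 2, 0]),
   (![3, 2, 2, 0, -3, -4], ![3, -3, -1, 2, -1, 0]),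
   (![2, 0, 2, 1, -3, -2], ![1, -3, -1, 2, 2, -1]),
   (![3, 2, 2, -3, -1, -3], ![3, -2, -1, 1, -2, 1])]

lemma check6 : ∀ b0 b1 b2 b3 b4 b5 b6 : Bool, ∃ t ∈ T6, bad (M6 b0 b1 b2 b3 b4 b5 b6) t := by
  decide +kernel

end Pool.Agent.X275.PG
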