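import Pool.Agent.X275.PG.Class

set_option autoImplicit false

open Finset

namespace Pool.Agent.X275.PG

variable {n : ℕ}

lemma toB {e : ℤ} (h : e = 0 ∨ e = 1) : ∃ b : Bool, e = cond b 1 0 := by
  rcases h with h | h
  · exact ⟨false, h⟩
  · exact ⟨true, h⟩

/-- The six-vertex configuration is impossible. -/
lemma pat6 {E : Fin n → Fin n → ℤ} (h : Sp E) (f : Fin 6 → Fin n) (hf : Function.Injective f)
    (h1 : E (f 0) (f 1) = 1) (h2 : E (f 0) (f 2) = 1) (h3 : E (f 3) (f 4) = 0)
    (h5 : ∀ j, E (f 5) j = 0) : False := by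
  obtain ⟨b0, e0⟩ := toB (h.zo (f 0) (f 3))
  obtain ⟨b1, e1⟩ := toB (h.zo (f 0) (f 4))
  obtain ⟨b2, e2⟩ := toB (h.zo (f 1) (f 2))
  obtain ⟨b3, e3⟩ := toB (h.zo (f 1) (f 3))
  obtain ⟨b4, e4⟩ := toB (h.zo (f 1) (f 4))
  obtain ⟨b5, e5⟩ := toB (h.zo (f 2) (f 3))
  obtain ⟨b6, e6⟩ := toB (h.zo (f 2) (f 4))
  obtain ⟨t, -, ht⟩ := check6 b0 b1 b2 b3 b4 b5 b6
  have h5' : ∀ j, E j (f 5) = 0 := fun j => by rw [h.symm]; exact h5 j
  have s1 : E (f 1) (f 0) = 1 := by rw [h.symm]; exact h1
  have s2 : E (f 2) (f 0) = 1 := by rw [h.symm]; exact h2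
  have s3 : E (f 4) (f 3) = 0 := by rw [h.symm]; exact h3
  have t0 : E (f 3) (f 0) = cond b0 1 0 := by rw [h.symm]; exact e0
  have t1 : E (f 4) (f 0) = cond b1 1 0 := by rw [h.symm]; exact e1
  have t2 : E (f 2) (f 1) = cond b2 1 0 := by rw [h.symm]; exact e2
  have t3 : E (f 3) (f 1) = cond b3 1 0 := by rw [h.symm]; exact e3
  have t4 : E (f 4) (f 1) = cond b4 1 0 := by rw [h.symm]; exact e4
  have t5 : E (f 3) (f 2) = cond b5 1 0 := by rw [h.symm]; exact e5
  have t6 : E (f 4) (f 2) = cond b6 1 0 := by rw [h.symm]; exact e6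
  refine kill h f hf (M6 b0 b1 b2 b3 b4 b5 b6) ?_ t ht
  intro i j
  fin_cases i <;> fin_cases j
  · exact h.diag _
  · exact h1
  · exact h2
  · exact e0
  · exact e1
  · exact h5' _
  · exact s1
  · exact h.diag _
  · exact e2
  · exact e3
  · exact e4
  · exact h5' _
  · exact s2
  · exact t2
  · exact h.diag _
  · exact e5
  · exact e6
  · exact h5' _
  · exact t0
  · exact t3
  · exact t5
  · exact h.diag _
  · exact h3
  · exact h5' _
  · exact t1
  · exact t4
  · exact t6
  · exact s3
  · exact h.diag _
  · exact h5' _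
  · exact h5 _
  · exact h5 _
  · exact h5 _
  · exact h5 _
  · exact h5 _
  · exact h.diag _

/-- The degree. -/
noncomputable def dg (E : Fin n → Fin n → ℤ) (i : Fin n) : ℕ := (univ.filter fun t => E i t = 1).card

/-- A non-neighbour of a vertex of maximal degree is isolated. -/
lemma isolated {E : Fin n → Fin n → ℤ} (h : Sp E) {a s : Fin n} (hmax : ∀ j, dg E j ≤ dg E a)
    (has : a ≠ s) (h0 : E a s = 0) (j : Fin n) : E s j = 0 := by
  by_contra hcon
  have hsj : E s j = 1 := (h.zo s j).resolve_left hcon
  have hjs : E j s = 1 := by rw [h.symm]; exact hsj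
  have hja : j ≠ a := by rintro rfl; omega
  have hmain : ∀ t, t ≠ j → E a t = 1 → E j t = 1 := by
    intro t htj hat
    by_contra hjt
    have hjt0 := (h.zo j t).resolve_right hjt
    exact na h has (Ne.symm htj) hat hjs h0 hjt0
  have hlt : dg E a < dg E j := by
    have hsub : ((univ.filter fun t => E a t = 1).erase j) ⊆ ((univ.filter fun t => E j t = 1).erase a).erase s := by
      intro t ht
      simp only [mem_erase, mem_filter, mem_univ, true_and] at ht ⊢
      refine ⟨?_, ?_, hmain t ht.1 ht.2⟩
      · rintro rfl; omega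
      · rintro rfl; have := h.diag t; omega
    have hc := card_le_card hsub
    have hmem : s ∈ (univ.filter fun t => E j t = 1).erase a := by
      simp only [mem_erase, mem_filter, mem_univ, true_and]
      exact ⟨Ne.symm has, hjs⟩
    rw [card_erase_of_mem hmem] at hc
    have hpos : 0 < ((univ.filter fun t => E j t = 1).erase a).card := card_pos.2 ⟨s, hmem⟩
    rcases h.zo a j with haj | haj
    · have hja0 : E j a = 0 := by rw [h.symm]; exact haj
      rw [erase_eq_of_notMem (by simp [haj]), erase_eq_of_notMem (by simp [hja0])] at hc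
      rw [erase_eq_of_notMem (by simp [hja0])] at hpos
      unfold dg
      omega
    · have hja1 : E j a = 1 := by rw [h.symm]; exact haj
      have m1 : j ∈ (univ.filter fun t => E a t = 1) := by simp [haj]
      have m2 : a ∈ (univ.filter fun t => E j t = 1) := by simp [hja1]
      rw [card_erase_of_mem m1, card_erase_of_mem m2] at hc
      rw [card_erase_of_mem m2] at hpos
      unfold dg
      omega
  exact absurd (hmax j) (not_le.2 hlt)

lemma avoid {n : ℕ} (S : Finset (Fin n)) (hS : S.card < n) : ∃ q, q ∉ S := by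
  by_contra hcon
  push Not at hcon
  have h1 : (univ : Finset (Fin n)) ⊆ S := fun x _ => hcon x
  have h2 := card_le_card h1
  rw [card_univ, Fintype.card_fin] at h2
  omega

/-- On at least six vertices an isolated vertex forces the empty graph. -/
lemma big {E : Fin n → Fin n → ℤ} (h : Sp E) (hn : 6 ≤ n) (s : Fin n) (hs : ∀ j, E s j = 0) :
    ∀ i j, E i j = 0 := by
  classical
  by_contra hcon
  push Not at hcon
  obtain ⟨i0, j0, hij0⟩ := hcon
  have hij1 : E i0 j0 = 1 := (h.zo i0 j0).resolve_left hij0
  have hs' : ∀ j, E j s = 0 := fun j => by rw [h.symm]; exact hs j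
  obtain ⟨a, -, ha⟩ := exists_max_image univ (dg E) ⟨s, mem_univ s⟩
  have hmax : ∀ j, dg E j ≤ dg E a := fun j => ha j (mem_univ j)
  have hdeg : 0 < dg E a := by
    refine lt_of_lt_of_le ?_ (hmax i0)
    unfold dg
    exact card_pos.2 ⟨j0, by simp [hij1]⟩
  obtain ⟨b, hb⟩ : ∃ b, E a b = 1 := by
    unfold dg at hdeg
    obtain ⟨b, hb⟩ := card_pos.1 hdeg
    exact ⟨b, by simpa using hb⟩
  have hba : E b a = 1 := by rw [h.symm]; exact hb
  have hab : a ≠ b := by rintro rfl; have := h.diag a; omega
  have has : a ≠ s := by rintro rfl; have := hs b; omega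
  have hbs : b ≠ s := by rintro rfl; have := hs' a; omega
  have hdvd := h.dvd
  by_cases hone : ∀ c, E a c = 1 → c = b
  · -- maximal degree one
    have hda : dg E a = 1 := by
      unfold dg
      rw [card_eq_one]
      refine ⟨b, ?_⟩
      ext t
      simp only [mem_filter, mem_univ, true_and, mem_singleton]
      exact ⟨hone t, fun ht => by rw [ht]; exact hb⟩
    have huniq : ∀ i x y, E i x = 1 → E i y = 1 → x = y := by
      intro i x y hx hy
      have h1 := hmax i
      rw [hda] at h1
      unfold dg at h1
      exact card_le_one.1 h1 x (by simp [hx]) y (by simp [hy])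
    have hzero : ∀ i, i ≠ a → i ≠ b → ∀ j, E i j = 0 := by
      intro i hia hib j
      by_contra hij
      have hij' := (h.zo i j).resolve_left hij
      have hja : j ≠ a := by
        rintro rfl
        have : E j i = 1 := by rw [h.symm]; exact hij'
        exact hib (hone i this)
      have hjb : j ≠ b := by
        rintro rfl
        have : E j i = 1 := by rw [h.symm]; exact hij'
        exact hia (huniq j i a this hba)
      have haj : E a j = 0 := (h.zo a j).resolve_right fun h' => hjb (hone j h')
      have hib0 : E i b = 0 := (h.zo i b).resolve_right fun h' => hjb (huniq i j b hij' h')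
      exact na h (Ne.symm hja) hib hb hij' haj hib0
    have hrow : ∀ i x, E i x = 1 → ∑ j, E i j = 1 := by
      intro i x hix
      rw [sum_eq_single x]
      · exact hix
      · intro j _ hjx
        exact (h.zo i j).resolve_right fun h' => hjx (huniq i j x h' hix)
      · intro h'; exact absurd (mem_univ x) h'
    have hsum : ∑ i, ∑ j, E i j = 2 := by
      have e1 : ∑ i, ∑ j, E i j = ∑ i ∈ ({a, b} : Finset (Fin n)), ∑ j, E i j := by
        symm
        apply sum_subset (subset_univ _)
        intro i _ hi
        simp only [mem_insert, mem_singleton, not_or] at hi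
        exact sum_eq_zero fun j _ => hzero i hi.1 hi.2 j
      rw [e1, sum_pair hab, hrow a b hb, hrow b a hba]
      norm_num
    rw [hsum] at hdvd
    have := Int.le_of_dvd (by norm_num) hdvd
    omega
  · push Not at hone
    obtain ⟨c, hc, hcb⟩ := hone
    have hac : a ≠ c := by rintro rfl; have := h.diag a; omega
    have hcs : c ≠ s := by rintro rfl; have := hs' a; omega
    have hfull : ∀ t, t ≠ a → t ≠ s → E a t = 1 := by
      intro t hta hts
      by_contra hat
      have hat0 := (h.zo a t).resolve_right hat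
      have hiso := isolated h hmax (Ne.symm hta) hat0
      have htb : t ≠ b := by rintro rfl; omega
      have htc : t ≠ c := by rintro rfl; omega
      obtain ⟨q, hq⟩ := avoid ({a, b, c, s, t} : Finset (Fin n))
        (lt_of_le_of_lt card_le_five (by omega))
      simp only [mem_insert, mem_singleton, not_or] at hq
      obtain ⟨q1, q2, q3, q4, q5⟩ := hq
      exact pat6 h ![a, b, c, t, q, s]
        (inj6 hab hac (Ne.symm hta) (Ne.symm q1) has (Ne.symm hcb) (Ne.symm htb) (Ne.symm q2) hbs
          (Ne.symm htc) (Ne.symm q3) hcs (Ne.symm q5) hts q4) hb hc (hiso q) hs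
    have hclique : ∀ p q, p ≠ q → p ≠ a → p ≠ s → q ≠ a → q ≠ s → E p q = 1 := by
      intro p q hpq hpa hps hqa hqs
      by_contra hE
      have hE0 := (h.zo p q).resolve_right hE
      obtain ⟨b', hb'⟩ := avoid ({a, s, p, q} : Finset (Fin n))
        (lt_of_le_of_lt card_le_four (by omega))
      simp only [mem_insert, mem_singleton, not_or] at hb'
      obtain ⟨x1, x2, x3, x4⟩ := hb'
      obtain ⟨c', hc'⟩ := avoid ({a, s, p, q, b'} : Finset (Fin n))
        (lt_of_le_of_lt card_le_five (by omega))
      simp only [mem_insert, mem_singleton, not_or] at hc'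
      obtain ⟨y1, y2, y3, y4, y5⟩ := hc'
      exact pat6 h ![a, b', c', p, q, s]
        (inj6 (Ne.symm x1) (Ne.symm y1) (Ne.symm hpa) (Ne.symm hqa) has (Ne.symm y5) x3 x4 x2
          y3 y4 y2 hpq hps hqs) (hfull b' x1 x2) (hfull c' y1 y2) hE0 hs
    have hE : ∀ i j, i ≠ s → E i j = 1 - (if j = i then 1 else 0) - (if j = s then 1 else 0) := by
      intro i j his
      by_cases hji : j = i
      · subst hji
        rw [if_pos rfl, if_neg his, h.diag]; norm_num
      · by_cases hjs : j = s
        · rw [if_neg hji, if_pos hjs, hjs, hs']; norm_num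
        · rw [if_neg hji, if_neg hjs]
          by_cases hia : i = a
          · rw [hia, hfull j (by rw [← hia]; exact hji) hjs]; norm_num
          · by_cases hja : j = a
            · rw [hja, h.symm, hfull i hia his]; norm_num
            · rw [hclique i j (Ne.symm hji) hia his hja hjs]; norm_num
    have hsum : ∑ i, ∑ j, E i j = ((n : ℤ) - 1) * (n - 2) := by
      rw [← add_sum_erase univ _ (mem_univ s), sum_eq_zero fun j _ => hs j, zero_add]
      have e1 : ∀ i ∈ univ.erase s, ∑ j, E i j = (n : ℤ) - 2 := by
        intro i hi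
        have his : i ≠ s := by simpa using hi
        rw [sum_congr rfl fun j _ => hE i j his, sum_sub_distrib, sum_sub_distrib]
        simp
        ring
      rw [sum_congr rfl e1, sum_const, card_erase_of_mem (mem_univ _), card_univ,
        Fintype.card_fin, nsmul_eq_mul]
      have e3 : ((n - 1 : ℕ) : ℤ) = n - 1 := by omega
      rw [e3]
    rw [hsum] at hdvd
    have h2 : (n : ℤ) ∣ 2 := by
      have e4 : (2 : ℤ) = (n - 1) * (n - 2) - n * (n - 3) := by ring
      rw [e4]
      exact dvd_sub hdvd (dvd_mul_right _ _)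
    have := Int.le_of_dvd (by norm_num) h2
    omega

end Pool.Agent.X275.PG
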