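import Pool.Agent.X275.PG.Class2

set_option autoImplicit false

open Finset

namespace Pool.Agent.X275.PG

variable {n : ℕ}

/-- The path with three vertices plus an isolated vertex. -/
def Pat (E : Fin n → Fin n → ℤ) (i j k l : Fin n) : Prop :=
  i ≠ j ∧ i ≠ k ∧ i ≠ l ∧ j ≠ k ∧ j ≠ l ∧ k ≠ l ∧ E i j = 1 ∧ E i k = 1 ∧ E j k = 0 ∧ ∀ m, E l m = 0

lemma sum_perm (E : Fin n → Fin n → ℤ) (f : Equiv.Perm (Fin n)) :
    ∑ i, ∑ j, E i j = ∑ i, ∑ j, E (f i) (f j) := by
  rw [← Equiv.sum_comp f (fun i => ∑ j, E i j)]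
  refine sum_congr rfl fun i _ => ?_
  rw [← Equiv.sum_comp f (fun j => E (f i) j)]

/-- Matrix of five vertices. -/
def M5 (b0 b1 b2 b3 b4 b5 : Bool) : Fin 5 → Fin 5 → ℤ :=
  ![![0, cond b0 1 0, cond b1 1 0, cond b2 1 0, 0],
    ![cond b0 1 0, 0, cond b3 1 0, cond b4 1 0, 0],
    ![cond b1 1 0, cond b3 1 0, 0, cond b5 1 0, 0],
    ![cond b2 1 0, cond b4 1 0, cond b5 1 0, 0, 0],
    ![0, 0, 0, 0, 0]]

/-- Test vectors. -/
def T5 : List ((Fin 5 → ℤ) × (Fin 5 → ℤ)) :=
  [(![-1, 0, -1, -1, 3], ![-1, -1, 1, 1, 0]),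
   (![-1, -1, 0, -1, 3], ![-1, 1, -1, 1, 0]),
   (![-1, -1, -1, 0, 3], ![-1, 1, 1, -1, 0]),
   (![-1, -1, 0, -1, 3], ![-1, 1, 1, -1, 0]),
   (![-1, -1, -1, 0, 3], ![-1, 1, -1, 1, 0]),
   (![-1, -1, -1, 0, 3], ![-1, -1, 1, 1, 0])]

lemma check5 : ∀ b0 b1 b2 b3 b4 b5 : Bool, ((5 : ℕ) : ℤ) ∣ ∑ i, ∑ j, M5 b0 b1 b2 b3 b4 b5 i j →
    (b0 = false ∧ b1 = false ∧ b2 = false ∧ b3 = false ∧ b4 = false ∧ b5 = false) ∨
    ∃ t ∈ T5, bad (M5 b0 b1 b2 b3 b4 b5) t := by
  decide +kernel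

lemma small5 {E : Fin 5 → Fin 5 → ℤ} (h : Sp E) (s : Fin 5) (hs : ∀ j, E s j = 0) :
    ∀ i j, E i j = 0 := by
  set f : Equiv.Perm (Fin 5) := Equiv.swap 4 s with hf
  have f4 : f 4 = s := Equiv.swap_apply_left _ _
  have hs' : ∀ j, E j s = 0 := fun j => by rw [h.symm]; exact hs j
  obtain ⟨b0, e0⟩ := toB (h.zo (f 0) (f 1))
  obtain ⟨b1, e1⟩ := toB (h.zo (f 0) (f 2))
  obtain ⟨b2, e2⟩ := toB (h.zo (f 0) (f 3))
  obtain ⟨b3, e3⟩ := toB (h.zo (f 1) (f 2))
  obtain ⟨b4, e4⟩ := toB (h.zo (f 1) (f 3))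
  obtain ⟨b5, e5⟩ := toB (h.zo (f 2) (f 3))
  have hM : ∀ i j, E (f i) (f j) = M5 b0 b1 b2 b3 b4 b5 i j := by
    intro i j
    fin_cases i <;> fin_cases j
    · exact h.diag _
    · exact e0
    · exact e1
    · exact e2
    · exact (congrArg (E (f 0)) f4).trans (hs' _)
    · exact (h.symm _ _).trans e0
    · exact h.diag _
    · exact e3
    · exact e4
    · exact (congrArg (E (f 1)) f4).trans (hs' _)
    · exact (h.symm _ _).trans e1
    · exact (h.symm _ _).trans e3
    · exact h.diag _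
    · exact e5
    · exact (congrArg (E (f 2)) f4).trans (hs' _)
    · exact (h.symm _ _).trans e2
    · exact (h.symm _ _).trans e4
    · exact (h.symm _ _).trans e5
    · exact h.diag _
    · exact (congrArg (E (f 3)) f4).trans (hs' _)
    · exact (congrFun (congrArg E f4) _).trans (hs _)
    · exact (congrFun (congrArg E f4) _).trans (hs _)
    · exact (congrFun (congrArg E f4) _).trans (hs _)
    · exact (congrFun (congrArg E f4) _).trans (hs _)
    · exact h.diag _
  have hd := h.dvd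
  rw [sum_perm E f] at hd
  simp only [hM] at hd
  rcases check5 b0 b1 b2 b3 b4 b5 hd with ⟨rfl, rfl, rfl, rfl, rfl, rfl⟩ | ⟨t, -, ht⟩
  · intro i j
    obtain ⟨i', rfl⟩ := f.surjective i
    obtain ⟨j', rfl⟩ := f.surjective j
    rw [hM]
    revert i' j'
    decide
  · exact absurd ht fun ht => kill h f f.injective _ hM t ht

/-- Matrix of four vertices. -/
def M4 (b0 b1 b2 : Bool) : Fin 4 → Fin 4 → ℤ :=
  ![![0, cond b0 1 0, cond b1 1 0, 0],
    ![cond b0 1 0, 0, cond b2 1 0, 0],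
    ![cond b1 1 0, cond b2 1 0, 0, 0],
    ![0, 0, 0, 0]]

lemma check4 : ∀ b0 b1 b2 : Bool, ((4 : ℕ) : ℤ) ∣ ∑ i, ∑ j, M4 b0 b1 b2 i j →
    (b0 = false ∧ b1 = false ∧ b2 = false) ∨ (b0 = true ∧ b1 = true ∧ b2 = false) ∨
    (b0 = true ∧ b1 = false ∧ b2 = true) ∨ (b0 = false ∧ b1 = true ∧ b2 = true) := by
  decide +kernel

lemma small4 {E : Fin 4 → Fin 4 → ℤ} (h : Sp E) (s : Fin 4) (hs : ∀ j, E s j = 0) :
    (∀ i j, E i j = 0) ∨ ∃ i j k l, Pat E i j k l := by
  set f : Equiv.Perm (Fin 4) := Equiv.swap 3 s with hf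
  have f3 : f 3 = s := Equiv.swap_apply_left _ _
  have hs' : ∀ j, E j s = 0 := fun j => by rw [h.symm]; exact hs j
  obtain ⟨b0, e0⟩ := toB (h.zo (f 0) (f 1))
  obtain ⟨b1, e1⟩ := toB (h.zo (f 0) (f 2))
  obtain ⟨b2, e2⟩ := toB (h.zo (f 1) (f 2))
  have hM : ∀ i j, E (f i) (f j) = M4 b0 b1 b2 i j := by
    intro i j
    fin_cases i <;> fin_cases j
    · exact h.diag _
    · exact e0
    · exact e1
    · exact (congrArg (E (f 0)) f3).trans (hs' _)
    · exact (h.symm _ _).trans e0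
    · exact h.diag _
    · exact e2
    · exact (congrArg (E (f 1)) f3).trans (hs' _)
    · exact (h.symm _ _).trans e1
    · exact (h.symm _ _).trans e2
    · exact h.diag _
    · exact (congrArg (E (f 2)) f3).trans (hs' _)
    · exact (congrFun (congrArg E f3) _).trans (hs _)
    · exact (congrFun (congrArg E f3) _).trans (hs _)
    · exact (congrFun (congrArg E f3) _).trans (hs _)
    · exact h.diag _
  have hd := h.dvd
  rw [sum_perm E f] at hd
  simp only [hM] at hd
  have ne : ∀ i j : Fin 4, i ≠ j → f i ≠ f j := fun i j hij => f.injective.ne hij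
  rcases check4 b0 b1 b2 hd with ⟨rfl, rfl, rfl⟩ | ⟨rfl, rfl, rfl⟩ | ⟨rfl, rfl, rfl⟩ | ⟨rfl, rfl, rfl⟩
  · left
    intro i j
    obtain ⟨i', rfl⟩ := f.surjective i
    obtain ⟨j', rfl⟩ := f.surjective j
    rw [hM]
    revert i' j'
    decide
  · right
    exact ⟨f 0, f 1, f 2, f 3, ne _ _ (by decide), ne _ _ (by decide), ne _ _ (by decide),
      ne _ _ (by decide), ne _ _ (by decide), ne _ _ (by decide), e0, e1, e2,
      fun m => by rw [f3]; exact hs m⟩
  · right
    exact ⟨f 1, f 0, f 2, f 3, ne _ _ (by decide), ne _ _ (by decide), ne _ _ (by decide),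
      ne _ _ (by decide), ne _ _ (by decide), ne _ _ (by decide), (h.symm _ _).trans e0, e2, e1,
      fun m => by rw [f3]; exact hs m⟩
  · right
    exact ⟨f 2, f 0, f 1, f 3, ne _ _ (by decide), ne _ _ (by decide), ne _ _ (by decide),
      ne _ _ (by decide), ne _ _ (by decide), ne _ _ (by decide), (h.symm _ _).trans e1,
      (h.symm _ _).trans e2, e0, fun m => by rw [f3]; exact hs m⟩

lemma check3 : ∀ b : Bool, ((3 : ℕ) : ℤ) ∣ ∑ i, ∑ j, (![![0, cond b 1 0, 0], ![cond b 1 0, 0, 0],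
    ![0, 0, 0]] : Fin 3 → Fin 3 → ℤ) i j → b = false := by
  decide +kernel

lemma small3 {E : Fin 3 → Fin 3 → ℤ} (h : Sp E) (s : Fin 3) (hs : ∀ j, E s j = 0) :
    ∀ i j, E i j = 0 := by
  set f : Equiv.Perm (Fin 3) := Equiv.swap 2 s with hf
  have f2 : f 2 = s := Equiv.swap_apply_left _ _
  have hs' : ∀ j, E j s = 0 := fun j => by rw [h.symm]; exact hs j
  obtain ⟨b, e⟩ := toB (h.zo (f 0) (f 1))
  have hd := h.dvd
  rw [sum_perm E f] at hd
  have hM : ∀ i j, E (f i) (f j) = (![![0, cond b 1 0, 0], ![cond b 1 0, 0, 0], ![0, 0, 0]] :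
      Fin 3 → Fin 3 → ℤ) i j := by
    intro i j
    fin_cases i <;> fin_cases j
    · exact h.diag _
    · exact e
    · exact (congrArg (E (f 0)) f2).trans (hs' _)
    · exact (h.symm _ _).trans e
    · exact h.diag _
    · exact (congrArg (E (f 1)) f2).trans (hs' _)
    · exact (congrFun (congrArg E f2) _).trans (hs _)
    · exact (congrFun (congrArg E f2) _).trans (hs _)
    · exact h.diag _
  simp only [hM] at hd
  have hb : b = false := check3 b hd
  subst hb
  intro i j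
  obtain ⟨i', rfl⟩ := f.surjective i
  obtain ⟨j', rfl⟩ := f.surjective j
  rw [hM]
  revert i' j'
  decide

lemma small2 {E : Fin 2 → Fin 2 → ℤ} (h : Sp E) (s : Fin 2) (hs : ∀ j, E s j = 0) :
    ∀ i j, E i j = 0 := by
  have hs' : ∀ j, E j s = 0 := fun j => by rw [h.symm]; exact hs j
  intro i j
  have h1 : ∀ i j s : Fin 2, i = s ∨ j = s ∨ i = j := by decide
  rcases h1 i j s with rfl | rfl | rfl
  · exact hs _
  · exact hs' _
  · exact h.diag _

/-- The complement. -/
def co (E : Fin n → Fin n → ℤ) : Fin n → Fin n → ℤ := fun i j => if i = j then 0 else 1 - E i j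

lemma fm_co {E : Fin n → Fin n → ℤ} (hd : ∀ i, E i i = 0) (x : Fin n → ℝ) (hx : ∑ i, x i = 0) :
    fm (co E) x = -∑ i, x i ^ 2 - fm E x := by
  unfold fm
  have e1 : ∀ i, ∑ j, ((co E i j : ℤ) : ℝ) * x j = - x i - ∑ j, (E i j : ℝ) * x j := by
    intro i
    have e2 : ∀ j, ((co E i j : ℤ) : ℝ) * x j = x j - (if i = j then x j else 0) - (E i j : ℝ) * x j := by
      intro j
      unfold co
      by_cases h : i = j
      · subst h; simp [hd i]
      · simp only [if_neg h]; push_cast; ring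
    rw [sum_congr rfl fun j _ => e2 j, sum_sub_distrib, sum_sub_distrib, hx]
    simp
  simp only [e1]
  rw [← sum_neg_distrib, ← sum_sub_distrib]
  exact sum_congr rfl fun i _ => by ring

lemma Sp.co {E : Fin n → Fin n → ℤ} (h : Sp E) : Sp (co E) where
  symm i j := by
    unfold PG.co
    by_cases hij : i = j
    · subst hij; rfl
    · rw [if_neg hij, if_neg (Ne.symm hij), h.symm]
  diag i := by unfold PG.co; simp
  zo i j := by
    unfold PG.co
    by_cases hij : i = j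
    · left; rw [if_pos hij]
    · rw [if_neg hij]
      rcases h.zo i j with h1 | h1 <;> rw [h1] <;> norm_num
  gap x y hx hy hx0 hy0 := by
    rw [fm_co h.diag x hx, fm_co h.diag y hy]
    have := h.gap y x hy hx hy0 hx0
    nlinarith
  dvd := by
    have e : ∑ i, ∑ j, PG.co E i j = (n : ℤ) * (n - 1) - ∑ i, ∑ j, E i j := by
      have e2 : ∀ i, ∑ j, PG.co E i j = (n : ℤ) - 1 - ∑ j, E i j := by
        intro i
        have e3 : ∀ j, PG.co E i j = 1 - (if i = j then 1 else 0) - E i j := by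
          intro j
          unfold PG.co
          by_cases hij : i = j
          · subst hij; simp [h.diag i]
          · simp only [if_neg hij]; ring
        rw [sum_congr rfl fun j _ => e3 j, sum_sub_distrib, sum_sub_distrib]
        simp
      rw [sum_congr rfl fun i _ => e2 i, sum_sub_distrib]
      simp
      ring
    rw [e]
    exact dvd_sub (dvd_mul_right _ _) h.dvd

lemma iso_case {E : Fin n → Fin n → ℤ} (h : Sp E) (hn : 2 ≤ n) (s : Fin n) (hs : ∀ j, E s j = 0) :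
    (∀ i j, E i j = 0) ∨ (n = 4 ∧ ∃ i j k l, Pat E i j k l) := by
  by_cases h6 : 6 ≤ n
  · exact Or.inl (big h h6 s hs)
  · have : n = 2 ∨ n = 3 ∨ n = 4 ∨ n = 5 := by omega
    rcases this with rfl | rfl | rfl | rfl
    · exact Or.inl (small2 h s hs)
    · exact Or.inl (small3 h s hs)
    · rcases small4 h s hs with h1 | h1
      · exact Or.inl h1
      · exact Or.inr ⟨rfl, h1⟩
    · exact Or.inl (small5 h s hs)

theorem classify {E : Fin n → Fin n → ℤ} (h : Sp E) (hn : 2 ≤ n) :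
    (∀ i j, i ≠ j → E i j = 0) ∨ (∀ i j, i ≠ j → E i j = 1) ∨
      (n = 4 ∧ ∃ i j k l, Pat E i j k l) ∨ (n = 4 ∧ ∃ i j k l, Pat (co E) i j k l) := by
  obtain ⟨a, -, ha⟩ := exists_max_image univ (dg E) ⟨⟨0, by omega⟩, mem_univ _⟩
  have hmax : ∀ j, dg E j ≤ dg E a := fun j => ha j (mem_univ j)
  by_cases hdom : ∀ j, j ≠ a → E a j = 1
  · have hiso : ∀ j, co E a j = 0 := by
      intro j
      unfold co
      by_cases hja : a = j
      · rw [if_pos hja]
      · rw [if_neg hja, hdom j (Ne.symm hja)]; norm_num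
    rcases iso_case h.co hn a hiso with h1 | h1
    · right; left
      intro i j hij
      have := h1 i j
      unfold co at this
      rw [if_neg hij] at this
      omega
    · right; right; right
      exact h1
  · push Not at hdom
    obtain ⟨s, hsa, hs⟩ := hdom
    have hs0 := (h.zo a s).resolve_right hs
    rcases iso_case h hn s (isolated h hmax (Ne.symm hsa) hs0) with h1 | h1
    · left
      intro i j _
      exact h1 i j
    · right; right; left
      exact h1

end Pool.Agent.X275.PG
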