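import Pool.Agent.X18.Spread
import Pool.Agent.X275.PG.Class3

set_option autoImplicit false

open Finset Matrix

namespace Pool.Agent.X275.PG

open Pool.Agent.X18.Spread

variable {n : ℕ}

lemma sum_emb {k : ℕ} (f : Fin k → Fin n) (x : Fin k → ℤ) :
    ∑ m, emb f x m = ((∑ a, x a : ℤ) : ℝ) := by
  have := sum_emb_mul f x (fun _ => 1)
  simp only [mul_one] at this
  rw [this]; push_cast; rfl

lemma sq_emb {k : ℕ} (f : Fin k → Fin n) (hf : Function.Injective f) (x : Fin k → ℤ) :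
    ∑ m, emb f x m ^ 2 = ((Nf x : ℤ) : ℝ) := by
  have := sum_emb_mul f x (emb f x)
  simp only [emb_apply f hf] at this
  unfold Nf
  push_cast
  simp only [sq]
  exact this

lemma fm_emb {k : ℕ} (E : Fin n → Fin n → ℤ) (f : Fin k → Fin n) (x : Fin k → ℤ) :
    fm E (emb f x) = ((Qf (fun a b => E (f a) (f b)) x : ℤ) : ℝ) := by
  unfold fm
  have e1 : ∀ i, ∑ j, (E i j : ℝ) * emb f x j = ∑ b, (x b : ℝ) * (E i (f b) : ℝ) := by
    intro i
    rw [← sum_emb_mul f x (fun j => (E i j : ℝ))]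
    exact sum_congr rfl fun j _ => mul_comm _ _
  simp only [e1]
  rw [sum_emb_mul f x (fun i => ∑ b, (x b : ℝ) * (E i (f b) : ℝ))]
  unfold Qf
  push_cast
  refine sum_congr rfl fun a _ => ?_
  congr 1
  refine sum_congr rfl fun b _ => ?_
  ring

/-- The real form. -/
noncomputable def F (G : Digraph (Fin n)) (x : Fin n → ℝ) : ℝ := x ⬝ᵥ (lap G *ᵥ x)

lemma betw (G : Digraph (Fin n)) (x : Fin n → ℝ) (hx : ∑ i, x i = 0) :
    alpha G * ∑ i, x i ^ 2 ≤ F G x ∧ F G x ≤ beta G * ∑ i, x i ^ 2 := by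
  have hnn : 0 ≤ ∑ i, x i ^ 2 := sum_nonneg fun i _ => sq_nonneg _
  rcases hnn.eq_or_lt with h0 | hpos
  · have hx0 : x = 0 := by
      funext i
      have := (sum_eq_zero_iff_of_nonneg (fun i _ => sq_nonneg (x i))).1 h0.symm i (mem_univ i)
      simpa using this
    subst hx0
    simp [F]
  · set s := Real.sqrt (∑ i, x i ^ 2) with hs
    have hspos : 0 < s := Real.sqrt_pos.2 hpos
    have hss : s * s = ∑ i, x i ^ 2 := Real.mul_self_sqrt hpos.le
    have hval : F G (s⁻¹ • x) = F G x / (∑ i, x i ^ 2) := by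
      unfold F
      rw [mulVec_smul, smul_dotProduct, dotProduct_smul, smul_eq_mul, smul_eq_mul, ← hss]
      field_simp
    have hmem : F G (s⁻¹ • x) ∈ values G := by
      refine ⟨s⁻¹ • x, ?_, ?_, rfl⟩
      · simp only [Pi.smul_apply, smul_eq_mul, ← mul_sum, hx, mul_zero]
      · simp only [Pi.smul_apply, smul_eq_mul, mul_pow, ← mul_sum]
        rw [← hss]
        field_simp
    rw [hval] at hmem
    obtain ⟨hb1, hb2⟩ := values_bdd G
    have h1 : alpha G ≤ F G x / (∑ i, x i ^ 2) := csInf_le hb1 hmem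
    have h2 : F G x / (∑ i, x i ^ 2) ≤ beta G := le_csSup hb2 hmem
    rw [le_div_iff₀ hpos] at h1
    rw [div_le_iff₀ hpos] at h2
    exact ⟨h1, h2⟩

/-- The arc-and-degree values at pairs. -/
noncomputable def vv (G : Digraph (Fin n)) (i j : Fin n) : ℤ :=
  (outDeg G i : ℤ) + outDeg G j + arc G i j + arc G j i

/-- The shifted values. -/
noncomputable def EE (G : Digraph (Fin n)) (c : ℤ) (i j : Fin n) : ℤ :=
  if i = j then 0 else vv G i j - c

lemma lap_apply (G : Digraph (Fin n)) (i j : Fin n) :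
    lap G i j = (if i = j then (outDeg G i : ℝ) else 0) - (arc G i j : ℝ) := by
  unfold lap arc
  simp only [Matrix.sub_apply, Matrix.diagonal_apply, Matrix.of_apply]
  split_ifs <;> simp

lemma arc_self (G : Digraph (Fin n)) (hl : ∀ i, ¬ G.Adj i i) (i : Fin n) : arc G i i = 0 := by
  unfold arc; simp [hl i]

lemma arc_sum (G : Digraph (Fin n)) (i : Fin n) : ∑ j, arc G i j = outDeg G i := by
  classical
  unfold arc outDeg
  rw [sum_boole]

lemma F_expand (G : Digraph (Fin n)) (x : Fin n → ℝ) :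
    F G x = ∑ i, (outDeg G i : ℝ) * x i ^ 2 - ∑ i, x i * ∑ j, (arc G i j : ℝ) * x j := by
  unfold F
  simp only [dotProduct, mulVec, lap_apply]
  rw [← sum_sub_distrib]
  refine sum_congr rfl fun i _ => ?_
  have : ∑ j, ((if i = j then (outDeg G i : ℝ) else 0) - (arc G i j : ℝ)) * x j =
      (outDeg G i : ℝ) * x i - ∑ j, (arc G i j : ℝ) * x j := by
    simp only [sub_mul, sum_sub_distrib, ite_mul, zero_mul]
    simp
  rw [this]; ring

lemma fm_EE (G : Digraph (Fin n)) (hl : ∀ i, ¬ G.Adj i i) (c : ℤ) (x : Fin n → ℝ)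
    (hx : ∑ i, x i = 0) : fm (EE G c) x = c * (∑ i, x i ^ 2) - 2 * F G x := by
  have hE : ∀ i j, ((EE G c i j : ℤ) : ℝ) = (outDeg G i : ℝ) + outDeg G j + arc G i j + arc G j i
      - c - (if i = j then 2 * (outDeg G i : ℝ) - c else 0) := by
    intro i j
    unfold EE vv
    by_cases h : i = j
    · subst h
      rw [if_pos rfl, if_pos rfl, arc_self G hl]
      push_cast; ring
    · rw [if_neg h, if_neg h]; push_cast; ring
  have e1 : ∀ i, ∑ j, ((EE G c i j : ℤ) : ℝ) * x j = (∑ j, (outDeg G j : ℝ) * x j) +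
      (∑ j, (arc G i j : ℝ) * x j) + (∑ j, (arc G j i : ℝ) * x j) -
      (2 * (outDeg G i : ℝ) - c) * x i := by
    intro i
    simp only [hE, sub_mul, add_mul, sum_sub_distrib, sum_add_distrib, ← mul_sum, hx, mul_zero,
      ite_mul, zero_mul]
    simp
  have e2 : ∑ i, x i * ∑ j, (arc G j i : ℝ) * x j = ∑ i, x i * ∑ j, (arc G i j : ℝ) * x j := by
    simp only [mul_sum]
    rw [sum_comm]
    refine sum_congr rfl fun i _ => sum_congr rfl fun j _ => ?_
    ring
  unfold fm
  simp only [e1, mul_sub, mul_add, sum_sub_distrib, sum_add_distrib, e2, ← sum_mul, hx, zero_mul]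
  rw [F_expand]
  have e3 : ∑ i, x i * ((2 * (outDeg G i : ℝ) - c) * x i) =
      2 * (∑ i, (outDeg G i : ℝ) * x i ^ 2) - c * ∑ i, x i ^ 2 := by
    rw [mul_sum, mul_sum, ← sum_sub_distrib]
    exact sum_congr rfl fun i _ => by ring
  rw [e3]; ring

lemma sum_EE (G : Digraph (Fin n)) (hl : ∀ i, ¬ G.Adj i i) (c : ℤ) :
    ∑ i, ∑ j, EE G c i j = n * (2 * (∑ i, (outDeg G i : ℤ)) - c * (n - 1)) := by
  have hE : ∀ i j, EE G c i j = (outDeg G i : ℤ) + outDeg G j + arc G i j + arc G j i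
      - c - (if i = j then 2 * (outDeg G i : ℤ) - c else 0) := by
    intro i j
    unfold EE vv
    by_cases h : i = j
    · subst h
      rw [if_pos rfl, if_pos rfl, arc_self G hl]
      ring
    · rw [if_neg h, if_neg h]; ring
  have e2 : ∑ i, ∑ j, arc G j i = ∑ i, (outDeg G i : ℤ) := by
    rw [sum_comm]
    exact sum_congr rfl fun i _ => arc_sum G i
  simp only [hE, sum_sub_distrib, sum_add_distrib, arc_sum, e2]
  simp [← mul_sum]
  ring

end Pool.Agent.X275.PG
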