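import Pool.Agent.X275.PG.Dig

set_option autoImplicit false

open Finset Matrix

namespace Pool.Agent.X275.PG

open Pool.Agent.X18.Spread

variable {n : ℕ}

lemma inj2 {i j : Fin n} (hij : i ≠ j) : Function.Injective ![i, j] := by
  intro a b hab
  fin_cases a <;> fin_cases b <;> simp_all

lemma vv_between (G : Digraph (Fin n)) (hl : ∀ i, ¬ G.Adj i i) {i j : Fin n} (hij : i ≠ j) :
    2 * alpha G ≤ vv G i j ∧ (vv G i j : ℝ) ≤ 2 * beta G := by
  have hs : ∑ m, emb ![i, j] ![1, -1] m = 0 := by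
    rw [sum_emb]; simp
  have h2 : ∑ m, emb ![i, j] ![1, -1] m ^ 2 = 2 := by
    rw [sq_emb _ (inj2 hij)]
    norm_num [Nf]
  have h3 := fm_EE G hl 0 _ hs
  rw [fm_emb] at h3
  have h4 : Qf (fun a b => EE G 0 (![i, j] a) (![i, j] b)) ![1, -1] = -2 * vv G i j := by
    have e1 : EE G 0 i j = vv G i j := by unfold EE; rw [if_neg hij]; ring
    have e2 : EE G 0 j i = vv G i j := by
      unfold EE; rw [if_neg (Ne.symm hij)]; unfold vv; ring
    have e3 : EE G 0 i i = 0 := by unfold EE; simp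
    have e4 : EE G 0 j j = 0 := by unfold EE; simp
    simp only [Qf, Fin.sum_univ_two, Matrix.cons_val_zero, Matrix.cons_val_one, e1, e2, e3, e4]
    ring
  rw [h4] at h3
  have h5 : F G (emb ![i, j] ![1, -1]) = vv G i j := by
    push_cast at h3
    linarith
  have h6 := betw G _ hs
  rw [h5, h2] at h6
  constructor <;> linarith [h6.1, h6.2]

lemma vv_symm (G : Digraph (Fin n)) (i j : Fin n) : vv G i j = vv G j i := by
  unfold vv; ring

/-- Small spread gives a graph. -/
theorem exists_sp (G : Digraph (Fin n)) (hl : ∀ i, ¬ G.Adj i i) (hn : 2 ≤ n) (hsp : sp G < 1) :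
    ∃ c : ℤ, Sp (EE G c) := by
  classical
  have hne : (univ : Finset (Fin n)).offDiag.Nonempty := by
    refine ⟨(⟨0, by omega⟩, ⟨1, by omega⟩), ?_⟩
    simp [mem_offDiag]
  obtain ⟨p, hp, hmin⟩ := exists_min_image (univ : Finset (Fin n)).offDiag
    (fun p => vv G p.1 p.2) hne
  have hp' : p.1 ≠ p.2 := by simpa [mem_offDiag] using hp
  have hlow : ∀ i j, i ≠ j → vv G p.1 p.2 ≤ vv G i j := by
    intro i j hij
    exact hmin (i, j) (by simp [mem_offDiag, hij])
  unfold sp at hsp
  have hup : ∀ i j, i ≠ j → vv G i j ≤ vv G p.1 p.2 + 1 := by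
    intro i j hij
    have h1 := (vv_between G hl hij).2
    have h2 := (vv_between G hl hp').1
    have h3 : (vv G i j : ℝ) < ((vv G p.1 p.2 + 2 : ℤ) : ℝ) := by push_cast; linarith
    have h4 : vv G i j < vv G p.1 p.2 + 2 := by exact_mod_cast h3
    omega
  refine ⟨vv G p.1 p.2, ?_, ?_, ?_, ?_, ?_⟩
  · intro i j
    unfold EE
    by_cases h : i = j
    · subst h; rfl
    · rw [if_neg h, if_neg (Ne.symm h), vv_symm]
  · intro i; unfold EE; simp
  · intro i j
    unfold EE
    by_cases h : i = j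
    · left; rw [if_pos h]
    · rw [if_neg h]
      have h1 := hlow i j h
      have h2 := hup i j h
      omega
  · intro x y hx hy hx0 hy0
    rw [fm_EE G hl _ x hx, fm_EE G hl _ y hy]
    have h1 := (betw G x hx).1
    have h2 := (betw G y hy).2
    have h3 : alpha G * (∑ i, x i ^ 2) * (∑ i, y i ^ 2) ≤ F G x * (∑ i, y i ^ 2) :=
      mul_le_mul_of_nonneg_right h1 hy0.le
    have h4 : F G y * (∑ i, x i ^ 2) ≤ beta G * (∑ i, y i ^ 2) * (∑ i, x i ^ 2) :=
      mul_le_mul_of_nonneg_right h2 hx0.le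
    have h5 : (beta G - alpha G) * ((∑ i, x i ^ 2) * (∑ i, y i ^ 2)) <
        1 * ((∑ i, x i ^ 2) * (∑ i, y i ^ 2)) :=
      mul_lt_mul_of_pos_right hsp (mul_pos hx0 hy0)
    nlinarith
  · rw [sum_EE G hl]
    exact dvd_mul_right _ _

lemma sp_zero_of (G : Digraph (Fin n)) (hn : 2 ≤ n) (κ : ℝ)
    (h : ∀ x : Fin n → ℝ, ∑ i, x i = 0 → F G x = κ * ∑ i, x i ^ 2) : sp G = 0 := by
  have hset : values G = {κ} := by
    refine Set.eq_singleton_iff_nonempty_unique_mem.2 ⟨values_nonempty G hn, ?_⟩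
    rintro t ⟨x, hx, hx1, rfl⟩
    have := h x hx
    rw [hx1, mul_one] at this
    exact this
  unfold sp alpha beta
  rw [hset, csInf_singleton, csSup_singleton, sub_self]

/-- The form of `G` in terms of a graph containing the pattern. -/
theorem reduction (G : Digraph (Fin n)) (hl : ∀ i, ¬ G.Adj i i) (hn : 2 ≤ n) (hsp : sp G < 1)
    (h0 : sp G ≠ 0) : n = 4 ∧ ∃ (E : Fin n → Fin n → ℤ) (γ τ : ℤ) (i j k l : Fin n),
      (∀ a b, E a b = E b a) ∧ (∀ a, E a a = 0) ∧ Pat E i j k l ∧ (τ = 1 ∨ τ = -1) ∧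
      ∀ x : Fin n → ℝ, ∑ i, x i = 0 → F G x = γ / 2 * (∑ i, x i ^ 2) - τ / 2 * fm E x := by
  obtain ⟨c, hc⟩ := exists_sp G hl hn hsp
  rcases classify hc hn with h | h | ⟨h4, i, j, k, l, h⟩ | ⟨h4, i, j, k, l, h⟩
  · exfalso
    apply h0
    refine sp_zero_of G hn (c / 2) fun x hx => ?_
    have h1 := fm_EE G hl c x hx
    have h2 : fm (EE G c) x = 0 := by
      unfold fm
      refine sum_eq_zero fun i _ => ?_
      rw [sum_eq_zero, mul_zero]
      intro j _
      by_cases hij : i = j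
      · subst hij; rw [hc.diag]; simp
      · rw [h i j hij]; simp
    rw [h2] at h1
    linarith
  · exfalso
    apply h0
    refine sp_zero_of G hn ((c + 1) / 2) fun x hx => ?_
    have h1 := fm_EE G hl c x hx
    have h2 : fm (EE G c) x = - ∑ i, x i ^ 2 := by
      unfold fm
      rw [← sum_neg_distrib]
      refine sum_congr rfl fun i _ => ?_
      have e1 : ∀ j, ((EE G c i j : ℤ) : ℝ) * x j = x j - if i = j then x j else 0 := by
        intro j
        by_cases hij : i = j
        · subst hij; rw [hc.diag]; simp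
        · rw [h i j hij]; simp [hij]
      rw [sum_congr rfl fun j _ => e1 j, sum_sub_distrib, hx]
      simp
      ring
    rw [h2] at h1
    linarith
  · refine ⟨h4, EE G c, c, 1, i, j, k, l, hc.symm, hc.diag, h, Or.inl rfl, fun x hx => ?_⟩
    have h1 := fm_EE G hl c x hx
    push_cast
    linarith
  · refine ⟨h4, co (EE G c), c + 1, -1, i, j, k, l, hc.co.symm, hc.co.diag, h, Or.inr rfl,
      fun x hx => ?_⟩
    have h1 := fm_EE G hl c x hx
    have h2 := fm_co hc.diag x hx
    push_cast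
    linarith

end Pool.Agent.X275.PG
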